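import Pool.Agent.Helper30_SkewP4.Stmts

/-!
# PSI and R1 (squad SKEW, MP_d1c004_ag)
-/

set_option autoImplicit false

open scoped Matrix

namespace Pool.Agent.SkewP4.H18

variable {Λ : Type} [Ring Λ] [Algebra ℂ Λ] {M : Model Λ} {n : ℕ}

theorem psiC (W : LamData M n) (hB : Basic W) (hS : Scal W) : PsiC W := by
  have odR : Od M (W.Q * W.Dh * W.Q) := (hB.evQ.mul_od hS.odDh).mul_ev hB.evQ
  have odqA : Od M (W.q * W.A) := hB.odq.mul_ev hB.evA
  have evU : Ev M (W.q * W.A * (W.Q * W.Dh * W.Q)) := odqA.mul odR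
  have odUD : Od M (W.q * W.A * (W.Q * W.Dh * W.Q) * W.D) := evU.mul_od hB.odD
  have iQDh : (W.Q * W.Dh).map M.i = 0 := by
    rw [hB.evQ.map_i_mul, hB.iQ, hS.iDh, zero_mul, mul_zero, add_zero]
  have odQDh : Od M (W.Q * W.Dh) := hB.evQ.mul_od hS.odDh
  have iR : (W.Q * W.Dh * W.Q).map M.i = 0 := by
    rw [odQDh.map_i_mul, iQDh, hB.iQ, zero_mul, mul_zero, sub_zero]
  have iqA : (W.q * W.A).map M.i = 0 := by
    rw [hB.odq.map_i_mul, hB.iq, hB.iA, zero_mul, mul_zero, sub_zero]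
  have iU : (W.q * W.A * (W.Q * W.Dh * W.Q)).map M.i = 0 := by
    rw [odqA.map_i_mul, iqA, iR, zero_mul, mul_zero, sub_zero]
  have iUD : (W.q * W.A * (W.Q * W.Dh * W.Q) * W.D).map M.i =
      W.q * W.A * (W.Q * W.Dh * W.Q) * W.A := by
    rw [evU.map_i_mul, iU, W.iD, zero_mul, zero_add]
  refine ⟨odUD.mul_ev hB.evP, ?_, ?_, ?_, ?_, ?_⟩
  · exact (((hS.odDh.mul_ev hB.evQ).mul hS.odDh).mul hB.evQ).mul_od hS.odDh
  · have e : W.A * W.Psi = (W.A * W.q * W.A) * ((W.Q * W.Dh * W.Q) * W.D * W.P) := by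
      simp only [LamData.Psi, mul_assoc]
    rw [e, hB.AqA, zero_mul]
  · rw [LamData.Psi, mul_assoc _ W.P W.P, hB.PP]
  · rw [LamData.Psi, odUD.map_i_mul, iUD, hB.iP, mul_zero, sub_zero, mul_assoc _ W.A W.P, hB.AP,
      mul_zero]
  · have odDhQ : Od M (W.Dh * W.Q) := hS.odDh.mul_ev hB.evQ
    have i1 : (W.Dh * W.Q).map M.i = 0 := by
      rw [hS.odDh.map_i_mul, hS.iDh, hB.iQ, zero_mul, mul_zero, sub_zero]
    have i2 : (W.Dh * W.Q * W.Dh).map M.i = 0 := by
      rw [odDhQ.map_i_mul, i1, hS.iDh, zero_mul, mul_zero, sub_zero]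
    have ev3 : Ev M (W.Dh * W.Q * W.Dh) := odDhQ.mul hS.odDh
    have i3 : (W.Dh * W.Q * W.Dh * W.Q).map M.i = 0 := by
      rw [ev3.map_i_mul, i2, hB.iQ, zero_mul, mul_zero, add_zero]
    have ev4 : Ev M (W.Dh * W.Q * W.Dh * W.Q) := ev3.mul hB.evQ
    rw [LamData.C0, ev4.map_i_mul, i3, hS.iDh, zero_mul, mul_zero, add_zero]

theorem r1 (W : LamData M n) (hB : Basic W) (hS : Scal W) : R1 W := by
  have odQDh : Od M (W.Q * W.Dh) := hB.evQ.mul_od hS.odDh
  have odqA : Od M (W.q * W.A) := hB.odq.mul_ev hB.evA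
  set R := W.Q * W.Dh * W.Q with hR
  have odR : Od M R := odQDh.mul_ev hB.evQ
  have dQ : W.Q.map M.d = W.q := rfl
  -- the differential of R
  have dR : R.map M.d = W.q * W.Dh * W.Q - W.h • (W.Q * W.A * W.Q) - W.Q * W.Dh * W.q := by
    have e1 : (W.Q * W.Dh).map M.d = W.q * W.Dh - W.h • (W.Q * W.A) := by
      rw [hB.evQ.map_d_mul, hS.dDh, dQ, mul_neg, mul_smul_ev hS.s_h, ← sub_eq_add_neg]
    rw [hR, odQDh.map_d_mul, e1, dQ, sub_mul, smul_mul']
  have AdR : W.A * R.map M.d = W.A * W.q * W.Dh * W.Q - W.h • (W.A * W.Q) -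
      W.A * W.Q * W.Dh * W.q := by
    rw [dR, mul_sub, mul_sub, mul_smul_ev hS.s_h]
    have e1 : W.A * (W.Q * W.A * W.Q) = W.A * W.Q := by
      rw [← mul_assoc, ← mul_assoc, W.AQA]
    rw [e1]
    simp only [mul_assoc]
  -- the differential of Psi
  have dPsi : W.Psi.map M.d * W.P = -(W.q * (W.A * R.map M.d) * W.D * W.P) := by
    have e1 : (W.q * W.A).map M.d = 0 := by
      rw [hB.odq.map_d_mul, hB.dq, W.dA, zero_mul, mul_zero, sub_zero]
    have e2 : (W.q * W.A * R).map M.d = -(W.q * W.A * R.map M.d) := by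
      rw [odqA.map_d_mul, e1, zero_mul, zero_sub]
    have ev2 : Ev M (W.q * W.A * R) := odqA.mul odR
    have e3 : (W.q * W.A * R * W.D).map M.d = -(W.q * W.A * R.map M.d * W.D) := by
      rw [ev2.map_d_mul, e2, W.dD, mul_zero, add_zero, neg_mul]
    have od3 : Od M (W.q * W.A * R * W.D) := ev2.mul_od hB.odD
    have e4 : W.Psi.map M.d = -(W.q * W.A * R.map M.d * W.D) * W.P +
        W.q * W.A * R * W.D * (W.q * W.A) := by
      rw [LamData.Psi, ← hR, od3.map_d_mul, e3, hB.dP, mul_neg, sub_neg_eq_add]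
    rw [e4, add_mul, mul_assoc _ W.P W.P, hB.PP]
    have e5 : W.q * W.A * R * W.D * (W.q * W.A) * W.P = 0 := by
      rw [mul_assoc _ (W.q * W.A) W.P, mul_assoc W.q W.A W.P, hB.AP, mul_zero, mul_zero]
    rw [e5, add_zero, neg_mul, mul_assoc W.q W.A]
  -- be * om
  have hbo : W.be * W.om = W.q * (W.A * W.q * W.Dh * W.Q) * W.D * W.P := by
    have e1 : W.be * W.om = W.be * W.P' * (W.D * W.Q * W.D * W.P) := by
      simp only [LamData.om, mul_assoc]
    have e2 : W.A * W.q * W.Dh = W.A * W.q * W.D := by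
      rw [LamData.Dh, mul_sub]
      have od : Od M (W.A * W.q) := hB.evA.mul_od hB.odq
      rw [mul_smul_od hS.s_al od, hB.AqA, smul_zero, neg_zero, sub_zero]
    rw [e1, hB.beP', e2, LamData.be]
    simp only [mul_assoc]
  have hAQDh : W.A * W.Q * W.Dh = W.A * W.Q * W.D - W.al • W.A := by
    rw [LamData.Dh, mul_sub, mul_smul_od_ev (hB.evA.mul hB.evQ), W.AQA]
  -- the last term
  have h3 : W.q * (W.A * W.Q * W.Dh * W.q) * W.D * W.P = W.F * W.F := by
    have e1 : W.q * (W.A * W.Q * W.Dh * W.q) * W.D * W.P =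
        W.q * (W.A * W.Q * W.D * W.q * W.D * W.P) -
          W.q * (W.al • (W.A * W.q * W.D * W.P)) := by
      rw [hAQDh]
      simp only [sub_mul, mul_sub, smul_mul', mul_assoc]
    have e2 : W.A * W.Q * W.D = W.D - W.P' * W.D := by
      rw [LamData.P', sub_mul, one_mul, sub_sub_cancel]
    have e3 : W.F * W.F = W.q * (W.D * W.q * W.D * W.P) := by
      have e4 : W.F * W.F = W.q * W.D * W.P * (W.q * W.D * W.P) := rfl
      have e5 : W.P * (W.q * W.D * W.P) = W.q * W.D * W.P := by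
        rw [LamData.P, sub_mul, one_mul, ← LamData.P]
        have e6 : W.Q * W.A * (W.q * W.D * W.P) = W.Q * (W.A * W.q * W.D * W.P) := by
          simp only [mul_assoc]
        rw [e6, hB.AqDP, mul_zero, sub_zero]
      rw [e4, mul_assoc (W.q * W.D) W.P, e5]
      simp only [mul_assoc]
    rw [e1, hB.AqDP, smul_zero, mul_zero, sub_zero, e2, e3]
    simp only [sub_mul, mul_sub]
    have e7 : W.P' * W.D * W.q * W.D * W.P = 0 := hB.P'DqDP
    rw [e7, mul_zero, sub_zero]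
  have h2 : W.q * (W.h • (W.A * W.Q)) * W.D * W.P = W.h • W.F := by
    have e1 : W.q * (W.h • (W.A * W.Q)) * W.D * W.P = W.h • (W.q * (W.A * W.Q * W.D * W.P)) := by
      rw [mul_smul_ev hS.s_h]
      simp only [smul_mul', mul_assoc]
    rw [e1, hB.AQDP, LamData.F, mul_assoc]
  show W.be * W.om = W.F * W.F + W.h • W.F - W.Psi.map M.d * W.P
  rw [dPsi, hbo, AdR]
  simp only [mul_sub, sub_mul]
  rw [h2, h3]
  abel

theorem psi (hB : BasicStmt) (hS : ScalStmt) : PsiStmt := fun Λ _ _ M n W hn =>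
  psiC W (hB Λ M n W) (hS Λ M n W hn)

theorem r1' (hB : BasicStmt) (hS : ScalStmt) : R1Stmt := fun Λ _ _ M n W hn =>
  r1 W (hB Λ M n W) (hS Λ M n W hn)

end Pool.Agent.SkewP4.H18
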